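import Pool.Agent.Helper74.CW.Defs

/-!
# Two matches
-/

namespace Pool.Agent.Helper74.CW

open Module Polynomial

variable {F K : Type*} [Field F] [Field K] [Algebra F K]

private lemma str_plane {A B C : Submodule F K} (hA : A ≤ C) (hB : B ≤ C) (dA : finrank F A = 2)
    (dB : finrank F B = 2) (dC : finrank F C = 3) (hne : A ≠ B) :
    A ⊔ B = C ∧ ∃ y : K, y ≠ 0 ∧ y ∈ A ∧ y ∈ B ∧ ∀ v ∈ A, v ∈ B → ∃ c : F, v = c • y := by
  haveI : FiniteDimensional F A := Module.finite_of_finrank_pos (by omega)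
  haveI : FiniteDimensional F B := Module.finite_of_finrank_pos (by omega)
  haveI : FiniteDimensional F C := Module.finite_of_finrank_pos (by omega)
  have h1 := Submodule.finrank_sup_add_finrank_inf_eq A B
  have h2 : finrank F ↥(A ⊔ B) ≤ finrank F C := Submodule.finrank_mono (sup_le hA hB)
  have h3 : finrank F ↥(A ⊓ B) ≤ finrank F A := Submodule.finrank_mono inf_le_left
  have h4 : finrank F ↥(A ⊓ B) ≠ 2 := by
    intro h
    have e1 : A ⊓ B = A := Submodule.eq_of_le_of_finrank_eq inf_le_left (by omega)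
    have e2 : A ≤ B := inf_eq_left.mp e1
    exact hne (Submodule.eq_of_le_of_finrank_eq e2 (by omega))
  have h5 : finrank F ↥(A ⊔ B) = 3 := by omega
  refine ⟨Submodule.eq_of_le_of_finrank_eq (sup_le hA hB) (by omega), ?_⟩
  have h6 : finrank F ↥(A ⊓ B) = 1 := by omega
  obtain ⟨v, hv, hw⟩ := finrank_eq_one_iff'.mp h6
  refine ⟨v, fun h => hv (Subtype.ext h), v.2.1, v.2.2, fun w hwA hwB => ?_⟩
  obtain ⟨c, hc⟩ := hw ⟨w, hwA, hwB⟩
  refine ⟨c, ?_⟩
  have := congrArg Subtype.val hc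
  exact this.symm

private lemma str_span2 {A : Submodule F K} (dA : finrank F A = 2) {y t : K} (hy : y ∈ A)
    (ht : t ∈ A) (hy0 : y ≠ 0) (h : ∀ c : F, t ≠ c • y) : A = Submodule.span F {y, t} := by
  haveI : FiniteDimensional F A := Module.finite_of_finrank_pos (by omega)
  have hle : Submodule.span F {y, t} ≤ A := by
    rw [Submodule.span_le]
    intro v hv
    rcases hv with rfl | rfl
    · exact hy
    · exact ht
  have hli : LinearIndependent F ![y, t] := by
    rw [LinearIndependent.pair_iff' hy0]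
    intro a ha
    exact h a ha.symm
  have hf : finrank F ↥(Submodule.span F {y, t}) = 2 := by
    have := finrank_span_eq_card hli
    rwa [Matrix.range_cons, Matrix.range_cons, Matrix.range_empty, Set.union_empty,
      Set.singleton_union, Fintype.card_fin] at this
  exact (Submodule.eq_of_le_of_finrank_eq hle (by omega)).symm

private lemma str_exists {A : Submodule F K} (dA : finrank F A = 2) (y : K) :
    ∃ u ∈ A, ∀ c : F, u ≠ c • y := by
  haveI : FiniteDimensional F A := Module.finite_of_finrank_pos (by omega)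
  by_contra hcon
  push Not at hcon
  have hle : A ≤ Submodule.span F {y} := by
    intro u hu
    obtain ⟨c, hc⟩ := hcon u hu
    rw [hc]
    exact Submodule.smul_mem _ _ (Submodule.mem_span_singleton_self y)
  have h1 : finrank F A ≤ finrank F ↥(Submodule.span F {y}) := Submodule.finrank_mono hle
  have h2 : finrank F ↥(Submodule.span F {y}) ≤ 1 := by
    have := finrank_span_le_card (R := F) ({y} : Set K)
    simpa using this
  omega

private lemma str_sc_finrank {ξ : K} (h : ξ ≠ 0) (A : Submodule F K) :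
    finrank F ↥(sc ξ A) = finrank F A := by
  have hinj : Function.Injective (LinearMap.mulLeft F ξ) := mul_right_injective₀ h
  exact (LinearEquiv.finrank_eq (Submodule.equivMapOfInjective _ hinj A)).symm

private lemma str_sc_mem {ξ : K} {A : Submodule F K} {v : K} (h : v ∈ A) : ξ * v ∈ sc ξ A :=
  ⟨v, h, rfl⟩

private lemma str_sc_span3 (w a b c : K) : sc w (Submodule.span F {a, b, c}) =
    Submodule.span F {w * a, w * b, w * c} := by
  unfold sc
  rw [Submodule.map_span]
  congr 1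
  simp [Set.image_insert_eq]

private lemma str_sc_span2 (w a b : K) : sc w (Submodule.span F {a, b}) =
    Submodule.span F {w * a, w * b} := by
  unfold sc
  rw [Submodule.map_span]
  congr 1
  simp [Set.image_insert_eq]

private lemma str_sup (a b c : K) : Submodule.span F {a, b} ⊔ Submodule.span F {a, c} =
    Submodule.span F {a, b, c} := by
  rw [← Submodule.span_union]
  congr 1
  ext v
  simp only [Set.mem_union, Set.mem_insert_iff, Set.mem_singleton_iff]
  tauto

private lemma str_li {T : Submodule F K} (dT : finrank F T = 3) {x y z : K}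
    (h : T = Submodule.span F {x, y, z}) : LinearIndependent F ![x, y, z] := by
  rw [linearIndependent_iff_card_eq_finrank_span, Fintype.card_fin, Set.finrank,
    Matrix.range_cons, Matrix.range_cons, Matrix.range_cons, Matrix.range_empty, Set.union_empty,
    Set.singleton_union, Set.singleton_union, ← h, dT]

/-- the second type -/
private lemma str_two {S T : Submodule F K} (hT : finrank F T = 3) {ξ₁ ξ₂ : K} (h1 : ξ₁ ≠ 0)
    {T₁ T₂ : Submodule F K} (d1 : finrank F T₁ = 2) (d2 : finrank F T₂ = 2)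
    (eT : T₁ ⊔ T₂ = T) (eS : sc ξ₁ T₁ ⊔ sc ξ₂ T₂ = S) {t₁ t₂ : K} (m1 : t₁ ∈ T₁) (m1' : t₁ ∈ T₂)
    (m2 : t₂ ∈ T₂) (hs : ξ₁ * t₁ = ξ₂ * t₂) (n1 : t₁ ≠ 0) (n2 : t₂ ≠ 0)
    (hn : ∀ c : F, t₂ ≠ c • t₁) :
    ∃ x y z : K, LinearIndependent F ![x, y, z] ∧ T = Submodule.span F {x, y, z} ∧
      (∃ w, w ≠ 0 ∧ S = sc w (Submodule.span F {x ^ 2, x * z, y * z})) := by
  obtain ⟨u, hu, hu'⟩ := str_exists d1 t₁
  have e1 := str_span2 d1 m1 hu n1 hu'
  have e2 := str_span2 d2 m1' m2 n1 hn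
  have eT' : T = Submodule.span F {t₁, u, t₂} := by
    rw [← eT, e1, e2, str_sup]
  refine ⟨t₁, u, t₂, str_li hT eT', eT', ξ₁ / t₂, div_ne_zero h1 n2, ?_⟩
  rw [str_sc_span3]
  have f1 : ξ₁ / t₂ * t₁ ^ 2 = ξ₂ * t₁ := by
    field_simp
    linear_combination hs
  have f2 : ξ₁ / t₂ * (t₁ * t₂) = ξ₁ * t₁ := by field_simp
  have f3 : ξ₁ / t₂ * (u * t₂) = ξ₁ * u := by field_simp
  rw [f1, f2, f3, ← eS, e1, e2, str_sc_span2, str_sc_span2, ← hs, ← Submodule.span_union]
  congr 1
  ext v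
  simp only [Set.mem_union, Set.mem_insert_iff, Set.mem_singleton_iff]
  tauto

theorem two_matches {S T : Submodule F K} (hS : finrank F S = 3) (hT : finrank F T = 3)
    (hn : ¬ Sim S T) {ξ₁ ξ₂ : K} (h1 : ξ₁ ≠ 0) (h2 : ξ₂ ≠ 0) {T₁ T₂ : Submodule F K}
    (hT1 : T₁ ≤ T) (hT2 : T₂ ≤ T) (d1 : finrank F T₁ = 2) (d2 : finrank F T₂ = 2)
    (hne : T₁ ≠ T₂) (hS1 : sc ξ₁ T₁ ≤ S) (hS2 : sc ξ₂ T₂ ≤ S) (hne' : sc ξ₁ T₁ ≠ sc ξ₂ T₂) :
    ∃ x y z : K, LinearIndependent F ![x, y, z] ∧ T = Submodule.span F {x, y, z} ∧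
      ((∃ w, w ≠ 0 ∧ S = sc w (Submodule.span F {y * z, x * z, x * y})) ∨
        (∃ w, w ≠ 0 ∧ S = sc w (Submodule.span F {x ^ 2, x * z, y * z}))) := by
  obtain ⟨eT, y, y0, y1, y2, hy⟩ := str_plane hT1 hT2 d1 d2 hT hne
  obtain ⟨eS, s, s0, s1, s2, -⟩ := str_plane hS1 hS2 (by rw [str_sc_finrank h1, d1])
    (by rw [str_sc_finrank h2, d2]) hS hne'
  obtain ⟨t₁, m1, e1⟩ := s1
  obtain ⟨t₂, m2, e2⟩ := s2
  simp only [LinearMap.mulLeft_apply] at e1 e2
  have n1 : t₁ ≠ 0 := by
    rintro rfl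
    rw [mul_zero] at e1
    exact s0 e1.symm
  have n2 : t₂ ≠ 0 := by
    rintro rfl
    rw [mul_zero] at e2
    exact s0 e2.symm
  have m1 : t₁ ∈ T₁ := m1
  have m2 : t₂ ∈ T₂ := m2
  have hs : ξ₁ * t₁ = ξ₂ * t₂ := by rw [e1, e2]
  by_cases c1 : ∃ c : F, t₁ = c • y
  · have m1' : t₁ ∈ T₂ := by
      obtain ⟨c, rfl⟩ := c1
      exact T₂.smul_mem c y2
    by_cases c2 : ∃ c : F, t₂ = c • y
    · -- both: similar
      exfalso
      apply hn
      obtain ⟨a, ha⟩ := c1
      obtain ⟨b, hb⟩ := c2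
      have a0 : a ≠ 0 := by
        rintro rfl
        rw [zero_smul] at ha
        exact n1 ha
      have b0 : b ≠ 0 := by
        rintro rfl
        rw [zero_smul] at hb
        exact n2 hb
      -- ξ₁ a = ξ₂ b
      have hab : a • ξ₁ = b • ξ₂ := by
        rw [ha, hb, mul_smul_comm, mul_smul_comm, ← smul_mul_assoc, ← smul_mul_assoc] at hs
        exact mul_right_cancel₀ y0 hs
      refine ⟨ξ₁, h1, ?_⟩
      have g : sc ξ₂ T₂ = sc ξ₁ T₂ := by
        apply le_antisymm
        · rintro v ⟨t, ht, rfl⟩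
          refine ⟨(b⁻¹ * a) • t, T₂.smul_mem _ ht, ?_⟩
          simp only [LinearMap.mulLeft_apply]
          rw [mul_smul_comm, mul_smul, ← smul_mul_assoc, hab, smul_mul_assoc, smul_smul,
            inv_mul_cancel₀ b0, one_smul]
        · rintro v ⟨t, ht, rfl⟩
          refine ⟨(a⁻¹ * b) • t, T₂.smul_mem _ ht, ?_⟩
          simp only [LinearMap.mulLeft_apply]
          rw [mul_smul_comm, mul_smul, ← smul_mul_assoc, ← hab, smul_mul_assoc, smul_smul,
            inv_mul_cancel₀ a0, one_smul]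
      rw [← eS, g, ← eT]
      unfold sc
      rw [Submodule.map_sup]
    · push Not at c2
      have c2' : ∀ c : F, t₂ ≠ c • t₁ := by
        intro c hc
        obtain ⟨a, ha⟩ := c1
        apply c2 (c * a)
        rw [hc, ha, mul_smul]
      obtain ⟨x, y', z, l1, l2, l3⟩ := str_two hT h1 d1 d2 eT eS m1 m1' m2 hs n1 n2 c2'
      exact ⟨x, y', z, l1, l2, Or.inr l3⟩
  · push Not at c1
    by_cases c2 : ∃ c : F, t₂ = c • y
    · have m2' : t₂ ∈ T₁ := by
        obtain ⟨c, rfl⟩ := c2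
        exact T₁.smul_mem c y1
      have c1' : ∀ c : F, t₁ ≠ c • t₂ := by
        intro c hc
        obtain ⟨a, ha⟩ := c2
        apply c1 (c * a)
        rw [hc, ha, mul_smul]
      obtain ⟨x, y', z, l1, l2, l3⟩ := str_two (S := S) hT h2 d2 d1 ((sup_comm _ _).trans eT)
        ((sup_comm _ _).trans eS) m2 m2' m1 hs.symm n2 n1 c1'
      exact ⟨x, y', z, l1, l2, Or.inr l3⟩
    · push Not at c2
      have f1 := str_span2 d1 y1 m1 y0 c1
      have f2 := str_span2 d2 y2 m2 y0 c2
      have eT' : T = Submodule.span F {y, t₁, t₂} := by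
        rw [← eT, f1, f2, str_sup]
      refine ⟨y, t₁, t₂, str_li hT eT', eT', Or.inl ⟨s / (t₁ * t₂),
        div_ne_zero s0 (mul_ne_zero n1 n2), ?_⟩⟩
      rw [str_sc_span3]
      have g1 : s / (t₁ * t₂) * (t₁ * t₂) = s := by field_simp
      have g2 : s / (t₁ * t₂) * (y * t₂) = ξ₁ * y := by
        rw [← e1]; field_simp
      have g3 : s / (t₁ * t₂) * (y * t₁) = ξ₂ * y := by
        rw [← e2]; field_simp
      rw [g1, g2, g3, ← eS, f1, f2, str_sc_span2, str_sc_span2, e1, e2, ← Submodule.span_union]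
      congr 1
      ext v
      simp only [Set.mem_union, Set.mem_insert_iff, Set.mem_singleton_iff]
      tauto

end Pool.Agent.Helper74.CW
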